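import Pool.Agent.H798.BV.Stm7

set_option autoImplicit false

/-!
# MP_f0bc87_an, critical pair `p = s = 2`: the piece L3a (helper81 for helper798)
-/

namespace Pool.Agent.H81.BV

open Pool.Agent.H798.BV
open scoped ComplexConjugate

/-- one term: `x⁻¹ = conj x + g D` with `g = conj x / |x|`, `D = 1/|x| - |x|` -/
theorem inv_eq (x : ℂ) (hx : x ≠ 0) :
    x⁻¹ = conj x + (conj x / (‖x‖ : ℂ)) * ((1 / ‖x‖ - ‖x‖ : ℝ) : ℂ) ∧
      x⁻¹ = (conj x / (‖x‖ : ℂ)) * ((1 / ‖x‖ : ℝ) : ℂ) ∧ ‖conj x / (‖x‖ : ℂ)‖ = 1 := by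
  have hn : ‖x‖ ≠ 0 := norm_ne_zero_iff.2 hx
  have hn' : (‖x‖ : ℂ) ≠ 0 := by exact_mod_cast hn
  have h1 : x * conj x = (‖x‖ : ℂ) ^ 2 := Complex.mul_conj' x
  have h2 : x⁻¹ = conj x / (‖x‖ : ℂ) ^ 2 := by
    rw [eq_div_iff (pow_ne_zero 2 hn'), ← h1, inv_mul_cancel_left₀ hx]
  refine ⟨?_, ?_, ?_⟩
  · rw [h2]
    push_cast
    field_simp
    ring
  · rw [h2]
    push_cast
    field_simp
  · rw [norm_div, Complex.norm_conj, Complex.norm_real, norm_norm, div_self hn]

theorem sq_norm_sub (a : ℝ) (w : ℂ) : ‖(a : ℂ) - w‖ ^ 2 = a ^ 2 - 2 * a * w.re + ‖w‖ ^ 2 := by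
  rw [Complex.sq_norm, Complex.sq_norm, Complex.normSq_apply, Complex.normSq_apply]
  simp only [Complex.sub_re, Complex.sub_im, Complex.ofReal_re, Complex.ofReal_im]
  ring

/-- B7-L3a -/
theorem t_L3a : S_L3a := by
  classical
  intro m w a hm ha ha2 hne hsum hw hl
  have hm0 : (0 : ℝ) < (m : ℝ) := by exact_mod_cast hm
  have hmc : (m : ℂ) ≠ 0 := by
    have : (m : ℝ) ≠ 0 := hm0.ne'
    exact_mod_cast this
  set l : Fin m → ℂ := fun k => ((a : ℂ) - w k)⁻¹ with hldef
  set g : Fin m → ℂ := fun k => conj ((a : ℂ) - w k) / (‖(a : ℂ) - w k‖ : ℂ) with hg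
  set R : Fin m → ℝ := fun k => ‖(a : ℂ) - w k‖ with hR
  set D : Fin m → ℝ := fun k => 1 / R k - R k with hD
  have hx : ∀ k, (a : ℂ) - w k ≠ 0 := fun k h => hne k (sub_eq_zero.1 h).symm
  have hR0 : ∀ k, 0 < R k := fun k => norm_pos_iff.2 (hx k)
  have hl1 : ∀ k, l k = conj ((a : ℂ) - w k) + g k * ((D k : ℝ) : ℂ) := fun k =>
    (inv_eq _ (hx k)).1
  have hl2 : ∀ k, l k = g k * ((1 / R k : ℝ) : ℂ) := fun k => (inv_eq _ (hx k)).2.1
  have hg1 : ∀ k, ‖g k‖ = 1 := fun k => (inv_eq _ (hx k)).2.2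
  have hln : ∀ k, ‖l k‖ = 1 / R k := by
    intro k
    rw [hldef, hR]
    simp only
    rw [norm_inv, one_div]
  have hgre : ∀ k, (g k).re ^ 2 + (g k).im ^ 2 = 1 := by
    intro k
    have h1 := hg1 k
    have h2 : ‖g k‖ ^ 2 = (g k).re ^ 2 + (g k).im ^ 2 := by
      rw [Complex.sq_norm, Complex.normSq_apply]
      ring
    rw [← h2, h1]
    norm_num
  -- sums of squares
  have hS1 : ∑ k, R k ^ 2 ≤ m * a ^ 2 + m := by
    have h1 : ∀ k, R k ^ 2 = a ^ 2 - 2 * a * (w k).re + ‖w k‖ ^ 2 := fun k => sq_norm_sub a (w k)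
    have h2 : ∑ k, (w k).re = 0 := by
      rw [← Complex.re_sum, hsum, Complex.zero_re]
    simp only [h1]
    rw [Finset.sum_add_distrib, Finset.sum_sub_distrib, ← Finset.mul_sum, h2, mul_zero, sub_zero,
      Finset.sum_const, Finset.card_univ, Fintype.card_fin, nsmul_eq_mul]
    linarith
  have hD2 : ∀ k, D k ^ 2 = ‖l k‖ ^ 2 - 2 + R k ^ 2 := by
    intro k
    rw [hln, hD]
    simp only
    have := (hR0 k).ne'
    field_simp
    ring
  have hS2 : ∑ k, D k ^ 2 ≤ m * a ^ 2 := by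
    simp only [hD2]
    rw [Finset.sum_add_distrib, Finset.sum_sub_distrib, Finset.sum_const, Finset.card_univ,
      Fintype.card_fin, nsmul_eq_mul]
    linarith
  have hS3 : ∑ k, |D k| ≤ m * a := by
    have h1 := sq_sum_le_card_mul_sum_sq (s := (Finset.univ : Finset (Fin m))) (f := fun k => |D k|)
    simp only [sq_abs, Finset.card_univ, Fintype.card_fin] at h1
    have h2 : (∑ k, |D k|) ^ 2 ≤ (m * a) ^ 2 := by
      refine h1.trans ?_
      have := mul_le_mul_of_nonneg_left hS2 hm0.le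
      nlinarith
    have h3 := abs_le_of_sq_le_sq h2 (by positivity)
    exact (le_abs_self _).trans h3
  have hsl : ∑ k, l k = (m : ℂ) * (a : ℂ) + ∑ k, g k * ((D k : ℝ) : ℂ) := by
    have h1 : ∑ k, conj ((a : ℂ) - w k) = (m : ℂ) * (a : ℂ) := by
      rw [← map_sum, Finset.sum_sub_distrib, hsum, sub_zero, Finset.sum_const, Finset.card_univ,
        Fintype.card_fin, nsmul_eq_mul, map_mul, Complex.conj_natCast, Complex.conj_ofReal]
    rw [← h1, ← Finset.sum_add_distrib]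
    exact Finset.sum_congr rfl fun k _ => hl1 k
  set U : ℝ := (∑ k, (g k).re ^ 2) / m with hU
  have hUs : ∑ k, (g k).re ^ 2 = m * U := by
    rw [hU]
    field_simp
  have hU0 : 0 ≤ U := div_nonneg (Finset.sum_nonneg fun k _ => sq_nonneg _) hm0.le
  have hU1 : U ≤ 1 := by
    rw [hU, div_le_one hm0]
    calc ∑ k, (g k).re ^ 2 ≤ ∑ _k : Fin m, (1 : ℝ) :=
          Finset.sum_le_sum fun k _ => by nlinarith [hgre k, sq_nonneg (g k).im]
      _ = m := by simp
  -- the big terms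
  set big : Finset (Fin m) := Finset.univ.filter (fun k => 2 < ‖l k‖) with hbig
  have hb1 : ∀ k ∈ big, ‖l k‖ ^ 2 ≤ 16 / 9 * D k ^ 2 := by
    intro k hk
    rw [hbig, Finset.mem_filter] at hk
    have h1 := hk.2
    have h2 : R k = 1 / ‖l k‖ := by
      rw [hln]
      field_simp
    have h3 : D k = ‖l k‖ - 1 / ‖l k‖ := by
      show 1 / R k - R k = _
      rw [← hln k, ← h2]
    have h4 : 1 / ‖l k‖ ≤ ‖l k‖ / 4 := by
      rw [div_le_div_iff₀ (by linarith) (by norm_num)]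
      nlinarith
    have h5 : 3 / 4 * ‖l k‖ ≤ D k := by
      rw [h3]
      linarith
    nlinarith
  have hbsum : ∑ k ∈ big, D k ^ 2 ≤ m * a ^ 2 :=
    (Finset.sum_le_univ_sum_of_nonneg fun k => sq_nonneg _).trans hS2
  have hbcard : (big.card : ℝ) ≤ m * a := by
    have h1 : ∑ _k ∈ big, (9 / 4 : ℝ) ≤ ∑ k ∈ big, D k ^ 2 := by
      refine Finset.sum_le_sum fun k hk => ?_
      have h2 := hb1 k hk
      rw [hbig, Finset.mem_filter] at hk
      have h3 := hk.2
      nlinarith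
    rw [Finset.sum_const, nsmul_eq_mul] at h1
    have h4 : m * a ^ 2 ≤ m * a * (1 / 2) := by nlinarith
    have h5 : 0 ≤ m * a := by positivity
    linarith
  -- the second moment
  set small : Finset (Fin m) := Finset.univ.filter (fun k => ¬ 2 < ‖l k‖) with hsmall
  have hE : ‖(∑ k ∈ small, l k ^ 2) - ∑ k, g k ^ 2‖ ≤ 3 * a * m := by
    have h1 : ∑ k, g k ^ 2 = ∑ k ∈ big, g k ^ 2 + ∑ k ∈ small, g k ^ 2 :=
      (Finset.sum_filter_add_sum_filter_not Finset.univ (fun k => 2 < ‖l k‖) _).symm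
    have h2 : (∑ k ∈ small, l k ^ 2) - ∑ k, g k ^ 2 =
        ∑ k ∈ small, (l k ^ 2 - g k ^ 2) - ∑ k ∈ big, g k ^ 2 := by
      rw [h1, Finset.sum_sub_distrib]
      ring
    have h3 : ‖∑ k ∈ small, (l k ^ 2 - g k ^ 2)‖ ≤ 2 * (m * a) := by
      calc ‖∑ k ∈ small, (l k ^ 2 - g k ^ 2)‖ ≤ ∑ k ∈ small, 2 * |D k| := by
            refine norm_sum_le_of_le _ fun k hk => ?_
            rw [hsmall, Finset.mem_filter] at hk
            have h4 : ‖l k‖ ≤ 2 := not_lt.1 hk.2
            rw [hln] at h4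
            have h5 : l k ^ 2 - g k ^ 2 = g k ^ 2 * (((1 / R k) * D k : ℝ) : ℂ) := by
              rw [hl2 k]
              have h6 : ((R k : ℝ) : ℂ) ≠ 0 := by exact_mod_cast (hR0 k).ne'
              have h7 : D k = 1 / R k - R k := rfl
              rw [h7]
              push_cast
              field_simp
            rw [h5, norm_mul, norm_pow, hg1, one_pow, one_mul, Complex.norm_real,
              Real.norm_eq_abs, abs_mul, abs_of_pos (by have := hR0 k; positivity)]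
            exact mul_le_mul_of_nonneg_right h4 (abs_nonneg _)
        _ ≤ ∑ k, 2 * |D k| := Finset.sum_le_univ_sum_of_nonneg fun k => by positivity
        _ = 2 * ∑ k, |D k| := by rw [Finset.mul_sum]
        _ ≤ 2 * (m * a) := by linarith
    have h8 : ‖∑ k ∈ big, g k ^ 2‖ ≤ m * a := by
      calc ‖∑ k ∈ big, g k ^ 2‖ ≤ ∑ k ∈ big, (1 : ℝ) := by
            refine norm_sum_le_of_le _ fun k hk => ?_
            rw [norm_pow, hg1, one_pow]
        _ = (big.card : ℝ) := by simp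
        _ ≤ m * a := hbcard
    rw [h2]
    refine (norm_sub_le _ _).trans ?_
    linarith
  have hyR : yR 2 l = (∑ k ∈ small, l k ^ 2) / (m : ℂ) := rfl
  have hyE : ‖yR 2 l - (∑ k, g k ^ 2) / (m : ℂ)‖ ≤ 3 * a := by
    rw [hyR, ← sub_div, norm_div, Complex.norm_natCast, div_le_iff₀ hm0]
    exact hE
  refine ⟨U, hU0, hU1, ?_, ?_, ?_, ?_, ?_⟩
  · rw [norm_div, Complex.norm_natCast, div_le_iff₀ hm0, hsl]
    refine (norm_add_le _ _).trans ?_
    have h1 : ‖(m : ℂ) * (a : ℂ)‖ = m * a := by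
      rw [norm_mul, Complex.norm_natCast, Complex.norm_real, Real.norm_eq_abs, abs_of_pos ha]
    have h2 : ‖∑ k, g k * ((D k : ℝ) : ℂ)‖ ≤ ∑ k, |D k| := by
      refine norm_sum_le_of_le _ fun k _ => ?_
      rw [norm_mul, hg1, one_mul, Complex.norm_real, Real.norm_eq_abs]
    rw [h1]
    linarith
  · rw [Complex.div_natCast_re, hsl, le_div_iff₀ hm0, Complex.add_re, Complex.re_sum]
    have h1 : ((m : ℂ) * (a : ℂ)).re = m * a := by
      rw [← Complex.ofReal_natCast, ← Complex.ofReal_mul, Complex.ofReal_re]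
    have h2 : ∀ k, (g k * ((D k : ℝ) : ℂ)).re = (g k).re * D k := fun k => by
      rw [Complex.re_mul_ofReal]
    rw [h1]
    simp only [h2]
    have h3 := Finset.sum_mul_sq_le_sq_mul_sq Finset.univ (fun k => (g k).re) D
    have h4 : (∑ k, (g k).re * D k) ^ 2 ≤ (m * Real.sqrt U * a) ^ 2 := by
      refine h3.trans ?_
      rw [hUs]
      have h5 : (m * Real.sqrt U * a) ^ 2 = m * U * (m * a ^ 2) := by
        rw [mul_pow, mul_pow, Real.sq_sqrt hU0]
        ring
      rw [h5]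
      exact mul_le_mul_of_nonneg_left hS2 (mul_nonneg hm0.le hU0)
    have h6 := abs_le.1 (abs_le_of_sq_le_sq h4 (by positivity))
    nlinarith [h6.1]
  · calc ∑ k ∈ big, ‖l k‖ ^ 2 ≤ ∑ k ∈ big, 16 / 9 * D k ^ 2 := Finset.sum_le_sum hb1
      _ = 16 / 9 * ∑ k ∈ big, D k ^ 2 := by rw [Finset.mul_sum]
      _ ≤ 16 / 9 * (m * a ^ 2) := by linarith
      _ ≤ 2 * a ^ 2 * m := by
        have : 0 ≤ m * a ^ 2 := by positivity
        linarith
  · have h1 : ‖(∑ k, g k ^ 2) / (m : ℂ) - 1‖ ≤ 2 * Real.sqrt (1 - U) := by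
      have h2 : (∑ k, g k ^ 2) / (m : ℂ) - 1 = (∑ k, (g k ^ 2 - 1)) / (m : ℂ) := by
        rw [Finset.sum_sub_distrib, Finset.sum_const, Finset.card_univ, Fintype.card_fin,
          nsmul_eq_mul, mul_one, sub_div, div_self hmc]
      rw [h2, norm_div, Complex.norm_natCast, div_le_iff₀ hm0]
      have h3 : ∀ k, ‖g k ^ 2 - 1‖ = 2 * |(g k).im| := by
        intro k
        have h4 : g k * conj (g k) = 1 := by
          rw [Complex.mul_conj', hg1]
          norm_num
        have h5 : g k ^ 2 - 1 = g k * (g k - conj (g k)) := by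
          rw [mul_sub, h4, sq]
        rw [h5, norm_mul, hg1, one_mul, Complex.sub_conj, norm_mul, Complex.norm_I, mul_one,
          Complex.norm_real, Real.norm_eq_abs, abs_mul, abs_of_pos (by norm_num : (0:ℝ) < 2)]
      have h6 : ∑ k, |(g k).im| ≤ m * Real.sqrt (1 - U) := by
        have h7 := sq_sum_le_card_mul_sum_sq (s := (Finset.univ : Finset (Fin m)))
          (f := fun k => |(g k).im|)
        simp only [sq_abs, Finset.card_univ, Fintype.card_fin] at h7
        have h8 : ∑ k, (g k).im ^ 2 = m * (1 - U) := by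
          have h9 : ∀ k, (g k).im ^ 2 = 1 - (g k).re ^ 2 := fun k => by linarith [hgre k]
          simp only [h9]
          rw [Finset.sum_sub_distrib, hUs, Finset.sum_const, Finset.card_univ, Fintype.card_fin,
            nsmul_eq_mul]
          ring
        have h10 : (∑ k, |(g k).im|) ^ 2 ≤ (m * Real.sqrt (1 - U)) ^ 2 := by
          refine h7.trans (le_of_eq ?_)
          rw [h8, mul_pow, Real.sq_sqrt (by linarith)]
          ring
        exact (le_abs_self _).trans (abs_le_of_sq_le_sq h10 (by positivity))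
      calc ‖∑ k, (g k ^ 2 - 1)‖ ≤ ∑ k, 2 * |(g k).im| :=
            norm_sum_le_of_le _ fun k _ => (h3 k).le
        _ = 2 * ∑ k, |(g k).im| := by rw [Finset.mul_sum]
        _ ≤ 2 * Real.sqrt (1 - U) * m := by linarith
    have h2 : yR 2 l - 1 = ((∑ k, g k ^ 2) / (m : ℂ) - 1) +
        (yR 2 l - (∑ k, g k ^ 2) / (m : ℂ)) := by ring
    rw [h2]
    refine (norm_add_le _ _).trans ?_
    linarith
  · have h1 : ((∑ k, g k ^ 2) / (m : ℂ)).re = 2 * U - 1 := by
      rw [Complex.div_natCast_re, Complex.re_sum]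
      have h2 : ∀ k, (g k ^ 2).re = 2 * (g k).re ^ 2 - 1 := by
        intro k
        have h3 : (g k ^ 2).re = (g k).re ^ 2 - (g k).im ^ 2 := by
          rw [sq, Complex.mul_re]
          ring
        rw [h3]
        linarith [hgre k]
      simp only [h2]
      rw [Finset.sum_sub_distrib, ← Finset.mul_sum, hUs, Finset.sum_const, Finset.card_univ,
        Fintype.card_fin, nsmul_eq_mul, mul_one]
      field_simp
    have h4 := (Complex.abs_re_le_norm (yR 2 l - (∑ k, g k ^ 2) / (m : ℂ))).trans hyE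
    rw [Complex.sub_re, h1] at h4
    linarith [(abs_le.1 h4).1]

end Pool.Agent.H81.BV
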